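import Pool.Agent.Y33.SM.Stm
import Pool.Agent.TH54.BU.FamLS
import Pool.Agent.TH54.BU.Rescale

/-!
# SM-LSX (job 6047): systems of lines with universal constants at large scales (helper96)

Adaptation of `exists_LS` (`TH54/BU/FamLS`, written by helper576).
-/

set_option autoImplicit false

namespace Pool.Agent.Y96.SM

open Pool.Agent.TH54.BU Pool.Agent.TH54.BU.Fls Pool.Agent.Y33.SM

theorem t (hacy : S_ACY) : S_LSX := by
  classical
  intro G _ w hw
  obtain ⟨T, hST, hA⟩ := hacy G w hw
  obtain ⟨B, hB⟩ := hA (100 * w.D + 100)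
  refine ⟨B + 100 * w.D + 100, ?_⟩
  intro κ hκ X hX
  obtain ⟨F, hFD, hF⟩ := rescale w (κ := κ) (by omega) (by omega)
  have hκ1 : 1 ≤ κ := by omega
  -- comparison of the two lengths
  have up : ∀ g : G, w.len g ≤ κ * F.len g := by
    intro g
    rw [hF]
    exact rescale_le hκ1 _
  have dn : ∀ g : G, κ * F.len g ≤ w.len g + κ - 1 := by
    intro g
    rw [hF]
    exact rescale_ge _
  have hFS : F.Stab (T * κ) := by
    intro g hg m
    refine (hST g hg m).trans ?_
    rw [mul_assoc]
    exact Nat.mul_le_mul_left _ (up _)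
  have hFA : F.Acy 500 12003 := by
    have hm := w.mixA (le_refl _) hST (acy_mix hB) (500 * κ)
    intro q hq
    have hq2 : B + 8 * (0 + 3) * (500 * κ) + 100 * w.D + 100 ≤ w.len q := by
      have h1 := dn q
      have h2 : κ * 12003 ≤ κ * F.len q := Nat.mul_le_mul_left _ hq
      omega
    have hSD : ∀ g ∈ F.SD 500 q, g ∈ w.SD (500 * κ) q := by
      rintro g ⟨h1, h2⟩
      refine ⟨?_, ?_⟩
      · have h3 := up g
        have h4 : κ * F.len g ≤ κ * 500 := Nat.mul_le_mul_left _ h1
        omega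
      · have h3 := up (q⁻¹ * g * q)
        have h4 : κ * F.len (q⁻¹ * g * q) ≤ κ * 500 := Nat.mul_le_mul_left _ h2
        omega
    intro g hg
    refine ⟨(hm q hq2 g (hSD g hg)).1, ?_⟩
    intro h hh
    exact (hm q hq2 g (hSD g hg)).2 h (hSD h hh)
  have hK : 100 * F.D + 100 ≤ 500 := by omega
  -- properties of the candidates
  have hsup : ∀ x ∈ X, w.Sup (2 * w.D) x := by
    intro x hx
    exact (w.sup_of_cmin (hX x hx).2.1 (by have := (hX x hx).2.2.1; omega)).1
  have hFsup : ∀ x ∈ X, F.Sup 100 x := by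
    intro x hx a b
    have h1 := hsup x hx a b
    have h2 := dn (x ^ a)
    have h3 := dn (x ^ b)
    have h4 := up (x ^ (a + b))
    have h5 : κ * (F.len (x ^ a) + F.len (x ^ b)) < κ * (F.len (x ^ (a + b)) + 3) := by
      rw [mul_add, mul_add]
      omega
    have h6 := Nat.lt_of_mul_lt_mul_left h5
    omega
  have hFlen : ∀ x ∈ X, F.len x ≤ 5 := by
    intro x hx
    have h1 := dn x
    have h2 := (hX x hx).2.2.2
    have h3 : κ * F.len x < κ * 6 := by omega
    have h4 := Nat.lt_of_mul_lt_mul_left h3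
    omega
  have hlin : ∀ x ∈ X, ∀ a : ℕ, a ≤ 2 * F.len (x ^ a) := by
    intro x hx a
    have h1 := sup_pow w (hsup x hx) a
    have h2 := (hX x hx).2.2.1
    have h3 := up (x ^ a)
    have h4 : a * κ ≤ a * w.len x := Nat.mul_le_mul_left _ h2
    have h5 : a * (2 * (2 * w.D)) ≤ a * κ := Nat.mul_le_mul_left _ (by omega)
    have h6 : a * (2 * (2 * w.D)) = 2 * (a * (2 * w.D)) := by ring
    have h7 : κ * a ≤ κ * (2 * F.len (x ^ a)) := by
      have e1 : κ * (2 * F.len (x ^ a)) = 2 * (κ * F.len (x ^ a)) := by ring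
      have e2 : κ * a = a * κ := by ring
      omega
    exact Nat.le_of_mul_le_mul_left h7 (by omega)
  -- candidates
  let Cand : Type := {x : G // x ∈ X}
  let S : Setoid Cand :=
    { r := fun x y => ∃ w : G, y.1 = w * x.1 * w⁻¹ ∨ y.1 = w * x.1⁻¹ * w⁻¹
      iseqv := by
        refine ⟨fun x => ⟨1, Or.inl (by simp)⟩, ?_, ?_⟩
        · rintro x y ⟨w, h | h⟩
          · exact ⟨w⁻¹, Or.inl (by rw [h]; group)⟩
          · exact ⟨w⁻¹, Or.inr (by rw [h]; group)⟩
        · rintro x y z ⟨w, h | h⟩ ⟨v, h' | h'⟩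
          · exact ⟨v * w, Or.inl (by rw [h', h]; group)⟩
          · exact ⟨v * w, Or.inr (by rw [h', h]; group)⟩
          · exact ⟨v * w, Or.inr (by rw [h', h]; group)⟩
          · exact ⟨v * w, Or.inl (by rw [h', h]; group)⟩ }
  let ι : Type := Quotient S
  let x : ι → G := fun i => (Quotient.out i).1
  have hxX : ∀ i, x i ∈ X := fun i => (Quotient.out i).2
  have hx : ∀ i, Prim (x i) ∧ F.Sup 100 (x i) ∧ F.len (x i) ≤ 5 :=
    fun i => ⟨(hX _ (hxX i)).1, hFsup _ (hxX i), hFlen _ (hxX i)⟩
  have hpax := fun i => F.exists_pax (hx i).1.1 (hx i).2.1 (hx i).2.2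
  choose κ' hshift hnear hproj hqc using hpax
  have hc : 10 * (F.D + 100 + 5 + 1) = 1100 := by omega
  rw [hc] at hproj hqc
  have hM := acy_mix hFA
  let L : LS F 1100 234003 2 :=
    { ι := ι
      x := x
      κ := κ'
      shift := hshift
      near := hnear
      proj := hproj
      sup := by
        intro i a b
        have := (hx i).2.1 a b
        omega
      xlen := by
        intro i
        have := (hx i).2.2
        omega
      qc := hqc
      lin := fun i a => hlin (x i) (hxX i) a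
      ov := by
        intro i j u hu a b
        by_contra hlt
        push Not at hlt
        have hcm := ovl F hK hFS hFA (hx i).2.2 (hx j).2.2 (hproj i) (hqc j) a b (by
          rw [hFD]
          exact hlt)
        have h3 := prim_comm u (hx i).1 (hx j).1 hcm
        have hij : i = j := by
          rw [← Quotient.out_eq i, ← Quotient.out_eq j]
          apply Quotient.sound
          show ∃ w : G, x j = w * x i * w⁻¹ ∨ x j = w * (x i)⁻¹ * w⁻¹
          rcases h3 with h3 | h3
          · exact ⟨u⁻¹, Or.inl (by rw [← h3]; group)⟩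
          · exact ⟨u⁻¹, Or.inr (by rw [← h3]; group)⟩
        refine hu hij ?_
        subst hij
        rcases h3 with h3 | h3
        · exact F.nrm hK hFS hM (hx i).1 (hw.odd u) (a := 1) (b := 1) one_ne_zero
            (by rw [zpow_one]; exact h3)
        · exact F.nrm hK hFS hM (hx i).1 (hw.odd u) (a := 1) (b := -1) one_ne_zero
            (by rw [zpow_one, zpow_neg, zpow_one]; exact h3) }
  refine ⟨F, L, hFD, hF, ⟨T * κ, hFS⟩, hFA, hxX, ?_⟩
  intro y hy
  let Y : Cand := ⟨y, hy⟩
  let i : ι := Quotient.mk S Y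
  obtain ⟨v, hv⟩ : ∃ v : G, Y.1 = v * x i * v⁻¹ ∨ Y.1 = v * (x i)⁻¹ * v⁻¹ :=
    Quotient.exact (Quotient.out_eq i)
  exact ⟨i, v, hv⟩

end Pool.Agent.Y96.SM
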